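import Mathlib

/-!
# Gaussian vectors: tails and independence of orthogonal directions
-/

set_option autoImplicit false

namespace Pool.Agent.MP_ec946a.RHR

open MeasureTheory ProbabilityTheory Finset

/-- The tail of the standard normal distribution. -/
noncomputable def Q (t : ℝ) : ℝ := (gaussianReal 0 1).real (Set.Ici t)

lemma Q_nonneg (t : ℝ) : 0 ≤ Q t := measureReal_nonneg

/-- Upper bound for the tail. -/
lemma Q_le {t : ℝ} (ht : 0 ≤ t) : Q t ≤ Real.exp (-t ^ 2 / 2) := by
  have h := measure_ge_le_exp_mul_mgf (μ := gaussianReal 0 1) (X := id) (t := t) t ht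
    (by
      have := integrable_exp_mul_gaussianReal (μ := 0) (v := 1) t
      simpa using this)
  rw [mgf_id_gaussianReal] at h
  have h2 : (gaussianReal 0 1).real {ω | t ≤ id ω} = Q t := rfl
  rw [h2] at h
  refine h.trans (le_of_eq ?_)
  rw [← Real.exp_add]
  congr 1
  simp
  ring

/-- Lower bound for the tail. -/
lemma Q_ge {t : ℝ} (ht : 0 ≤ t) : Real.exp (-t ^ 2 / 2) / (7 * (1 + t)) ≤ Q t := by
  set d : ℝ := 1 / (1 + t) with hd
  have h1 : (0 : ℝ) < 1 + t := by linarith
  have hd0 : 0 < d := by positivity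
  have hd1 : d * (1 + t) = 1 := by rw [hd]; field_simp
  have hd2 : d ≤ 1 := by
    rw [hd, div_le_one h1]; linarith
  have h2 : (gaussianReal 0 1).real (Set.Icc t (t + d)) ≤ Q t :=
    measureReal_mono (fun x hx => hx.1)
  refine le_trans ?_ h2
  have h3 : (gaussianReal 0 1).real (Set.Icc t (t + d))
      = ∫ x in Set.Icc t (t + d), gaussianPDFReal 0 1 x := by
    rw [measureReal_def, gaussianReal_apply_eq_integral 0 one_ne_zero,
      ENNReal.toReal_ofReal (setIntegral_nonneg measurableSet_Icc
        fun x _ => gaussianPDFReal_nonneg 0 1 x)]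
  rw [h3]
  have hc : √(2 * Real.pi * 1) * Real.exp 1 ≤ 7 := by
    have e1 : Real.exp 1 < 2.7182818286 := Real.exp_one_lt_d9
    have e2 : √(2 * Real.pi * 1) ≤ 2.51 := by
      rw [Real.sqrt_le_left (by norm_num)]
      have := Real.pi_lt_d2
      norm_num
      linarith
    have e3 : 0 ≤ √(2 * Real.pi * 1) := Real.sqrt_nonneg _
    have e4 : 0 < Real.exp 1 := Real.exp_pos _
    nlinarith
  have h4 : ∀ x ∈ Set.Icc t (t + d), Real.exp (-t ^ 2 / 2) / 7 ≤ gaussianPDFReal 0 1 x := by
    intro x hx
    obtain ⟨hx1, hx2⟩ := hx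
    have hx3 : x ^ 2 ≤ t ^ 2 + 2 := by nlinarith
    have hs : 0 < √(2 * Real.pi * 1) := Real.sqrt_pos.mpr (by positivity)
    unfold gaussianPDFReal
    simp only [NNReal.coe_one, sub_zero]
    have h5 : Real.exp (-t ^ 2 / 2) / Real.exp 1 ≤ Real.exp (-x ^ 2 / (2 * 1)) := by
      rw [← Real.exp_sub]
      apply Real.exp_le_exp.mpr
      linarith
    have h6 : Real.exp (-t ^ 2 / 2) / 7
        ≤ Real.exp (-t ^ 2 / 2) / (√(2 * Real.pi * 1) * Real.exp 1) := by
      apply div_le_div_of_nonneg_left (Real.exp_pos _).le _ hc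
      positivity
    refine h6.trans ?_
    rw [inv_mul_eq_div, div_mul_eq_div_div_swap]
    exact div_le_div_of_nonneg_right h5 hs.le
  have h5 : ∫ x in Set.Icc t (t + d), Real.exp (-t ^ 2 / 2) / 7
      ≤ ∫ x in Set.Icc t (t + d), gaussianPDFReal 0 1 x := by
    refine setIntegral_mono_on ?_ ?_ measurableSet_Icc h4
    · exact integrableOn_const (by simp) (by simp)
    · exact (integrable_gaussianPDFReal 0 1).integrableOn
  refine le_trans (le_of_eq ?_) h5
  rw [setIntegral_const]
  simp only [measureReal_def, Real.volume_Icc, smul_eq_mul]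
  rw [show t + d - t = d by ring, ENNReal.toReal_ofReal hd0.le, hd]
  field_simp

variable {E : Type*} [NormedAddCommGroup E] [InnerProductSpace ℝ E] [FiniteDimensional ℝ E]
  [MeasurableSpace E] [BorelSpace E]

lemma measurable_inner (v : E) : Measurable (fun g : E => inner ℝ v g) := by fun_prop

lemma measurableSet_le_inner (s : ℝ) (v : E) : MeasurableSet {g : E | s ≤ inner ℝ v g} :=
  measurableSet_le measurable_const (measurable_inner v)

/-- The law of a coordinate of a Gaussian vector. -/
lemma map_inner (v : E) :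
    (stdGaussian E).map (fun g => inner ℝ v g) = gaussianReal 0 (‖v‖ ^ 2).toNNReal := by
  have h := (IsGaussian.hasGaussianLaw_id (μ := stdGaussian E)).map (innerSL ℝ v)
  have h2 := h.map_eq_gaussianReal
  have e : (⇑(innerSL ℝ v) ∘ id) = fun g => inner ℝ v g := by
    ext g; simp
  rw [e] at h2
  rw [h2]
  have m : ∫ g, inner ℝ v g ∂(stdGaussian E) = 0 := by
    have := integral_strongDual_stdGaussian (E := E) (innerSL ℝ v)
    simpa using this
  have va : Var[fun g => inner ℝ v g; stdGaussian E] = ‖v‖ ^ 2 := by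
    have := variance_dual_stdGaussian (E := E) (innerSL ℝ v)
    rw [innerSL_apply_norm] at this
    rw [← this]
    rfl
  rw [m, va]

/-- The probability that a coordinate exceeds `t` standard deviations. -/
lemma prob_ge (v : E) (hv : v ≠ 0) (t : ℝ) :
    (stdGaussian E).real {g | t * ‖v‖ ≤ inner ℝ v g} = Q t := by
  have hn : 0 < ‖v‖ := norm_pos_iff.mpr hv
  have h1 : (stdGaussian E).real {g | t * ‖v‖ ≤ inner ℝ v g}
      = ((stdGaussian E).map (fun g => inner ℝ (‖v‖⁻¹ • v) g)).real (Set.Ici t) := by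
    rw [map_measureReal_apply (measurable_inner _) measurableSet_Ici]
    congr 1
    ext g
    simp only [Set.mem_ofPred_eq, Set.mem_preimage, Set.mem_Ici, real_inner_smul_left]
    rw [inv_mul_eq_div, le_div_iff₀ hn]
  rw [h1, map_inner, norm_smul, norm_inv, norm_norm, inv_mul_cancel₀ hn.ne']
  unfold Q
  simp

/-- Families of coordinates in orthogonal directions are independent. -/
lemma indep {ι κ : Type*} [Fintype ι] [Fintype κ] (v : ι → E) (w : κ → E)
    (h : ∀ i j, inner ℝ (v i) (w j) = 0) :
    IndepFun (fun g i => inner ℝ (v i) g) (fun g j => inner ℝ (w j) g) (stdGaussian E) := by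
  refine HasGaussianLaw.indepFun_of_covariance_eval ?_ ?_
  · have h0 := IsGaussian.hasGaussianLaw_id (μ := stdGaussian E)
    let L : E →L[ℝ] ((ι → ℝ) × (κ → ℝ)) :=
      (ContinuousLinearMap.pi fun i => innerSL ℝ (v i)).prod
        (ContinuousLinearMap.pi fun j => innerSL ℝ (w j))
    exact HasGaussianLaw.map_fun (F := (ι → ℝ) × (κ → ℝ)) h0 L
  · intro i j
    have h1 : covarianceBilin (stdGaussian E) (v i) (w j) = inner ℝ (v i) (w j) := by
      rw [covarianceBilin_stdGaussian]; rfl
    rw [h] at h1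
    rw [covarianceBilin_apply_eq_cov] at h1
    · exact h1
    · exact IsGaussian.memLp_two_id

end Pool.Agent.MP_ec946a.RHR
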