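import Mathlib
import Pool.Agent.Lib.RHR.Tail

/-!
# One block of the rounding
-/

set_option autoImplicit false

namespace Pool.Agent.MP_ec946a.RHR

open MeasureTheory ProbabilityTheory Finset

/-- The number `√2 - 1`. -/
noncomputable def lam : ℝ := √2 - 1

lemma lam_sq : lam ^ 2 = 3 - 2 * √2 := by
  unfold lam
  have := Real.sq_sqrt (show (0 : ℝ) ≤ 2 by norm_num)
  nlinarith

lemma lam_eq : 2 * lam + lam ^ 2 = 1 := by
  rw [lam_sq]; unfold lam; ring

lemma lam_nonneg : 0 ≤ lam := by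
  unfold lam
  have : (1 : ℝ) ≤ √2 := by
    rw [Real.one_le_sqrt]; norm_num
  linarith

lemma lam_le : lam ≤ 1 / 2 := by
  have h1 := lam_eq
  have h2 := lam_nonneg
  nlinarith

variable {E : Type*} [NormedAddCommGroup E] [InnerProductSpace ℝ E]

/-- The threshold of a vector. -/
noncomputable def tau (w : E) : ℝ := √(2 * Real.log (4 / ‖w‖ ^ 2))

/-- The vector `w` is a candidate for the Gaussian vector `g`. -/
def Cand (w g : E) : Prop := w ≠ 0 ∧ tau w * ‖w‖ ≤ inner ℝ w g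

lemma tau_nonneg (w : E) : 0 ≤ tau w := Real.sqrt_nonneg _

lemma log_nonneg' {w : E} (h0 : w ≠ 0) (h : ‖w‖ ≤ 1) : 0 ≤ Real.log (4 / ‖w‖ ^ 2) := by
  have hn : 0 < ‖w‖ := norm_pos_iff.mpr h0
  apply Real.log_nonneg
  rw [le_div_iff₀ (by positivity)]
  nlinarith

lemma tau_sq {w : E} (h0 : w ≠ 0) (h : ‖w‖ ≤ 1) : tau w ^ 2 = 2 * Real.log (4 / ‖w‖ ^ 2) :=
  Real.sq_sqrt (by linarith [log_nonneg' h0 h])

lemma exp_tau {w : E} (h0 : w ≠ 0) (h : ‖w‖ ≤ 1) :
    Real.exp (-(tau w) ^ 2 / 2) = ‖w‖ ^ 2 / 4 := by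
  have hn : 0 < ‖w‖ := norm_pos_iff.mpr h0
  have h1 : -(tau w) ^ 2 / 2 = - Real.log (4 / ‖w‖ ^ 2) := by
    rw [neg_div, tau_sq h0 h]; ring
  rw [h1, Real.exp_neg, Real.exp_log (by positivity), inv_div]

lemma tau_anti {w w' : E} (h0 : w ≠ 0) (h : ‖w‖ ≤ ‖w'‖) (h1 : ‖w'‖ ≤ 1) : tau w' ≤ tau w := by
  have hn : 0 < ‖w‖ := norm_pos_iff.mpr h0
  have hn' : 0 < ‖w'‖ := hn.trans_le h
  unfold tau
  apply Real.sqrt_le_sqrt
  apply mul_le_mul_of_nonneg_left _ (by norm_num)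
  apply Real.log_le_log (by positivity)
  apply div_le_div_of_nonneg_left (by norm_num) (by positivity)
  nlinarith

/-- The sum of two orthogonal vectors, the first of which is the longer one, is a candidate. -/
lemma cand_add {xa z g : E} (h0 : xa ≠ 0) (hz : inner ℝ xa z = 0) (hza : ‖z‖ ≤ ‖xa‖)
    (h1 : ‖xa + z‖ ≤ 1) (ha : tau xa * ‖xa‖ ≤ inner ℝ xa g)
    (hb : lam * tau xa * ‖z‖ ≤ inner ℝ z g) : Cand (xa + z) g := by
  have hn : 0 < ‖xa‖ := norm_pos_iff.mpr h0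
  have hzn : 0 ≤ ‖z‖ := norm_nonneg z
  have hl := lam_nonneg
  have hsq : ‖xa + z‖ ^ 2 = ‖xa‖ ^ 2 + ‖z‖ ^ 2 := by
    rw [norm_add_sq_real, hz]; ring
  have hle : ‖xa‖ ≤ ‖xa + z‖ := by
    apply le_of_sq_le_sq _ (norm_nonneg _)
    rw [hsq]; nlinarith
  have hup : ‖xa + z‖ ≤ ‖xa‖ + lam * ‖z‖ := by
    apply le_of_sq_le_sq _ (by positivity)
    rw [hsq]
    have := lam_eq
    nlinarith [mul_nonneg hl (mul_nonneg hzn (sub_nonneg.mpr hza))]
  refine ⟨?_, ?_⟩
  · rw [← norm_pos_iff]; linarith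
  · rw [inner_add_left]
    have ht := tau_nonneg xa
    have h2 : tau (xa + z) * ‖xa + z‖ ≤ tau xa * ‖xa + z‖ :=
      mul_le_mul_of_nonneg_right (tau_anti h0 hle h1) (norm_nonneg _)
    have h3 : tau xa * ‖xa + z‖ ≤ tau xa * (‖xa‖ + lam * ‖z‖) :=
      mul_le_mul_of_nonneg_left hup ht
    nlinarith

variable [FiniteDimensional ℝ E] [MeasurableSpace E] [BorelSpace E]

lemma measurableSet_cand (w : E) : MeasurableSet {g : E | Cand w g} := by
  unfold Cand
  exact (MeasurableSet.const _).inter (measurableSet_le_inner _ _)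

/-- A vector is a candidate with probability at most a quarter of its squared length. -/
lemma prob_cand_le (w : E) (h : ‖w‖ ≤ 1) :
    (stdGaussian E).real {g | Cand w g} ≤ ‖w‖ ^ 2 / 4 := by
  by_cases h0 : w = 0
  · have : {g : E | Cand w g} = ∅ := by
      ext g; simp [Cand, h0]
    rw [this]; simp; positivity
  · have h1 : {g : E | Cand w g} = {g | tau w * ‖w‖ ≤ inner ℝ w g} := by
      ext g; simp [Cand, h0]
    rw [h1, prob_ge w h0, ← exp_tau h0 h]
    exact Q_le (tau_nonneg w)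

/-- The probability that a vector (possibly zero) exceeds `t ≥ 0` standard deviations. -/
lemma prob_ge' (v : E) {t : ℝ} :
    Q t ≤ (stdGaussian E).real {g | t * ‖v‖ ≤ inner ℝ v g} := by
  by_cases hv : v = 0
  · have : {g : E | t * ‖v‖ ≤ inner ℝ v g} = Set.univ := by
      ext g; simp [hv]
    rw [this]
    simp only [probReal_univ]
    exact measureReal_le_one
  · exact (prob_ge v hv t).ge

theorem block {κ : Type*} [Fintype κ] (xa z : E) (w : κ → E) (h0 : xa ≠ 0) 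
    (hz : inner ℝ xa z = 0) (hza : ‖z‖ ≤ ‖xa‖) (h1 : ‖xa + z‖ ≤ 1)
    (hw : ∀ j, inner ℝ xa (w j) = 0) (hw' : ∀ j, inner ℝ z (w j) = 0) (hw1 : ∀ j, ‖w j‖ ≤ 1)
    (hs : ∑ j, ‖w j‖ ^ 2 ≤ 2) :
    Q (tau xa) * Q (lam * tau xa) / 2
      ≤ (stdGaussian E).real {g | Cand xa g ∧ Cand (xa + z) g ∧ ∀ j, ¬ Cand (w j) g} := by
  classical
  set μ := stdGaussian E with hμ
  -- the two good events
  set A1 : Set E := {g | tau xa * ‖xa‖ ≤ inner ℝ xa g} with hA1
  set A2 : Set E := {g | lam * tau xa * ‖z‖ ≤ inner ℝ z g} with hA2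
  set B : Set E := {g | ∀ j, ¬ Cand (w j) g} with hB
  have hmono : μ.real ((A1 ∩ A2) ∩ B)
      ≤ μ.real {g | Cand xa g ∧ Cand (xa + z) g ∧ ∀ j, ¬ Cand (w j) g} := by
    refine measureReal_mono ?_
    rintro g ⟨⟨h2, h3⟩, h4⟩
    exact ⟨⟨h0, h2⟩, cand_add h0 hz hza h1 h2 h3, h4⟩
  refine le_trans ?_ hmono
  -- independence
  have hind := indep (E := E) ![xa, z] w (by
    intro i j
    fin_cases i
    · exact hw j
    · exact hw' j)
  have e1 : A1 ∩ A2 = (fun g i => inner ℝ (![xa, z] i) g) ⁻¹'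
      {f : Fin 2 → ℝ | tau xa * ‖xa‖ ≤ f 0 ∧ lam * tau xa * ‖z‖ ≤ f 1} := by
    ext g; simp [hA1, hA2]
  have e2 : B = (fun g j => inner ℝ (w j) g) ⁻¹'
      {f : κ → ℝ | ∀ j, ¬ (w j ≠ 0 ∧ tau (w j) * ‖w j‖ ≤ f j)} := by
    ext g; simp [hB, Cand]
  have m1 : MeasurableSet {f : Fin 2 → ℝ | tau xa * ‖xa‖ ≤ f 0 ∧ lam * tau xa * ‖z‖ ≤ f 1} :=
    (measurableSet_le measurable_const (measurable_pi_apply 0)).inter
      (measurableSet_le measurable_const (measurable_pi_apply 1))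
  have m2 : MeasurableSet {f : κ → ℝ | ∀ j, ¬ (w j ≠ 0 ∧ tau (w j) * ‖w j‖ ≤ f j)} := by
    rw [show {f : κ → ℝ | ∀ j, ¬ (w j ≠ 0 ∧ tau (w j) * ‖w j‖ ≤ f j)}
      = ⋂ j, {f : κ → ℝ | ¬ (w j ≠ 0 ∧ tau (w j) * ‖w j‖ ≤ f j)} by ext; simp]
    exact MeasurableSet.iInter fun j => ((MeasurableSet.const _).inter
      (measurableSet_le measurable_const (measurable_pi_apply j))).compl
  have hprod : μ.real ((A1 ∩ A2) ∩ B) = μ.real (A1 ∩ A2) * μ.real B := by
    rw [e1, e2]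
    simp only [measureReal_def]
    rw [hind.measure_inter_preimage_eq_mul _ _ m1 m2, ENNReal.toReal_mul]
  have hind2 := indep (E := E) (fun _ : Unit => xa) (fun _ : Unit => z) (fun _ _ => hz)
  have hprod2 : μ.real (A1 ∩ A2) = μ.real A1 * μ.real A2 := by
    have e3 : A1 = (fun g (_ : Unit) => inner ℝ xa g) ⁻¹'
      {f : Unit → ℝ | tau xa * ‖xa‖ ≤ f ()} := by ext g; simp [hA1]
    have e4 : A2 = (fun g (_ : Unit) => inner ℝ z g) ⁻¹'
      {f : Unit → ℝ | lam * tau xa * ‖z‖ ≤ f ()} := by ext g; simp [hA2]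
    rw [e3, e4]
    simp only [measureReal_def]
    rw [hind2.measure_inter_preimage_eq_mul _ _
      (measurableSet_le measurable_const (measurable_pi_apply _))
      (measurableSet_le measurable_const (measurable_pi_apply _)), ENNReal.toReal_mul]
  have hB2 : 1 / 2 ≤ μ.real B := by
    have hc : Bᶜ = ⋃ j, {g | Cand (w j) g} := by
      ext g; simp [hB]
    have hm : MeasurableSet B := by
      rw [← compl_compl B, hc]
      exact (MeasurableSet.iUnion fun j => measurableSet_cand (w j)).compl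
    have h2 : μ.real Bᶜ ≤ 1 / 2 := by
      rw [hc]
      refine (measureReal_iUnion_fintype_le _).trans ?_
      refine (sum_le_sum fun j _ => prob_cand_le (w j) (hw1 j)).trans ?_
      rw [← sum_div]
      linarith
    have h3 := probReal_compl_eq_one_sub (μ := μ) hm
    linarith
  rw [hprod, hprod2]
  have q1 : Q (tau xa) ≤ μ.real A1 := prob_ge' xa
  have q2 : Q (lam * tau xa) ≤ μ.real A2 := prob_ge' z
  have q3 := Q_nonneg (tau xa)
  have q4 := Q_nonneg (lam * tau xa)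
  have q5 : Q (tau xa) * Q (lam * tau xa) ≤ μ.real A1 * μ.real A2 :=
    mul_le_mul q1 q2 q4 (q3.trans q1)
  have q6 : 0 ≤ Q (tau xa) * Q (lam * tau xa) := mul_nonneg q3 q4
  nlinarith

end Pool.Agent.MP_ec946a.RHR
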