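import Mathlib
import Pool.Agent.Lib.MP_ec946a_sdp.Relax

/-!
# Solutions of the relaxation with objective one
-/

set_option autoImplicit false

namespace Pool.Agent.MP_ec946a.RHR

open Finset

variable {q n : ℕ} {G : Game q}

lemma sum_norm_sq {E : Type*} [NormedAddCommGroup E] [InnerProductSpace ℝ E] {ι : Type*}
    [Fintype ι] (w : ι → E) (x₀ : E) (hs : ∑ b, w b = x₀) (h1 : ‖x₀‖ = 1)
    (ho : ∀ b b', b ≠ b' → inner ℝ (w b) (w b') = 0) : ∑ b, ‖w b‖ ^ 2 = 1 := by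
  classical
  have h : inner ℝ x₀ x₀ = (1 : ℝ) := by rw [real_inner_self_eq_norm_sq, h1, one_pow]
  rw [← h]
  nth_rewrite 1 [← hs]
  rw [sum_inner]
  refine sum_congr rfl fun b _ => ?_
  rw [← hs, inner_sum, sum_eq_single_of_mem b (mem_univ _) fun b' _ hb => ho b b' hb.symm,
    real_inner_self_eq_norm_sq]

/-- The sum of the vectors over the fibre. -/
noncomputable def fib (σ : G.SDPSolution n) (e : G.E) (b : Fin q) : EuclideanSpace ℝ (Fin n) :=
  ∑ a ∈ univ.filter (fun a => G.proj e a = b), σ.x (G.src e) a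

lemma fib_sum (σ : G.SDPSolution n) (e : G.E) : ∑ b, fib σ e b = σ.x₀ := by
  unfold fib
  rw [sum_fiberwise, σ.sum_x]

lemma inner_x_fib (σ : G.SDPSolution n) (e : G.E) (a b : Fin q) (h : G.proj e a ≠ b) :
    inner ℝ (σ.x (G.src e) a) (fib σ e b) = 0 := by
  unfold fib
  rw [inner_sum]
  refine sum_eq_zero fun c hc => σ.orth_x _ _ _ ?_
  rintro rfl
  exact h (mem_filter.mp hc).2

lemma fib_orth (σ : G.SDPSolution n) (e : G.E) (b b' : Fin q) (h : b ≠ b') :
    inner ℝ (fib σ e b) (fib σ e b') = 0 := by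
  rw [fib, sum_inner]
  refine sum_eq_zero fun a ha => inner_x_fib σ e a b' ?_
  rw [(mem_filter.mp ha).2]
  exact h

/-- If the objective is one, the vectors of `v` are the sums over the fibres. -/
theorem exact (σ : G.SDPSolution n) (h : σ.obj = 1) (e : G.E) (b : Fin q) :
    σ.y (G.tgt e) b = fib σ e b := by
  have hE : (0 : ℝ) < (Nat.card G.E : ℝ) := by exact_mod_cast Nat.card_pos
  set S : G.E → ℝ := fun e => ∑ a, inner ℝ (σ.x (G.src e) a) (σ.y (G.tgt e) (G.proj e a)) with hS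
  have hle : ∀ e, S e ≤ 1 := by
    intro e
    have h1 : inner ℝ σ.x₀ σ.x₀ = (1 : ℝ) := by
      rw [real_inner_self_eq_norm_sq, σ.norm_x₀, one_pow]
    have h2 : inner ℝ (∑ a, σ.x (G.src e) a) (∑ b, σ.y (G.tgt e) b) = (1 : ℝ) := by
      rw [σ.sum_x, σ.sum_y, h1]
    rw [← h2, sum_inner]
    refine sum_le_sum fun a _ => ?_
    rw [inner_sum]
    exact single_le_sum (f := fun b => inner ℝ (σ.x (G.src e) a) (σ.y (G.tgt e) b))
      (fun b _ => σ.nonneg e a b) (mem_univ (G.proj e a))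
  have hsum : ∑ e, S e = ∑ _e : G.E, (1 : ℝ) := by
    have h3 : σ.obj = (∑ e, S e) / Nat.card G.E := rfl
    rw [h3, div_eq_one_iff_eq hE.ne'] at h
    rw [h]
    simp [Nat.card_eq_fintype_card]
  have hS1 : S e = 1 := (sum_eq_sum_iff_of_le fun e _ => hle e).mp hsum e (mem_univ e)
  have hcross : ∑ b, inner ℝ (σ.y (G.tgt e) b) (fib σ e b) = (1 : ℝ) := by
    rw [← hS1, hS]
    simp only [fib, inner_sum]
    have : ∀ b, ∑ a ∈ univ.filter (fun a => G.proj e a = b),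
        inner ℝ (σ.y (G.tgt e) b) (σ.x (G.src e) a)
        = ∑ a ∈ univ.filter (fun a => G.proj e a = b),
          inner ℝ (σ.x (G.src e) a) (σ.y (G.tgt e) (G.proj e a)) := by
      intro b
      refine sum_congr rfl fun a ha => ?_
      rw [(mem_filter.mp ha).2, real_inner_comm]
    rw [sum_congr rfl fun b _ => this b, sum_fiberwise]
  have hy := sum_norm_sq (fun b => σ.y (G.tgt e) b) σ.x₀ (σ.sum_y _) σ.norm_x₀ (σ.orth_y _)
  have hz := sum_norm_sq (fun b => fib σ e b) σ.x₀ (fib_sum σ e) σ.norm_x₀ (fib_orth σ e)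
  have htot : ∑ b, ‖σ.y (G.tgt e) b - fib σ e b‖ ^ 2 = 0 := by
    have : ∀ b, ‖σ.y (G.tgt e) b - fib σ e b‖ ^ 2
        = ‖σ.y (G.tgt e) b‖ ^ 2 - 2 * inner ℝ (σ.y (G.tgt e) b) (fib σ e b)
          + ‖fib σ e b‖ ^ 2 := fun b => norm_sub_sq_real _ _
    rw [sum_congr rfl fun b _ => this b, sum_add_distrib, sum_sub_distrib, ← mul_sum, hcross,
      hy, hz]
    norm_num
  have h0 := (sum_eq_zero_iff_of_nonneg fun b _ => sq_nonneg _).mp htot b (mem_univ b)
  rw [sq_eq_zero_iff, norm_eq_zero, sub_eq_zero] at h0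
  exact h0

end Pool.Agent.MP_ec946a.RHR
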