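import Mathlib
import Pool.Agent.Lib.RHR.Block

/-!
# The numerical estimate of the rounding
-/

set_option autoImplicit false

namespace Pool.Agent.MP_ec946a.RHR

open MeasureTheory ProbabilityTheory Finset

variable {E : Type*} [NormedAddCommGroup E] [InnerProductSpace ℝ E]

theorem num (xa : E) (h0 : xa ≠ 0) (h1 : ‖xa‖ ≤ 1) (N : ℝ) (hN : 1 ≤ N)
    (hp : 1 / (4 * N) ≤ ‖xa‖ ^ 2) :
    ‖xa‖ ^ 2 / 4 * (16 * N) ^ (-(lam ^ 2)) / (98 * (2 + 4 * Real.log (16 * N)))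
      ≤ Q (tau xa) * Q (lam * tau xa) / 2 := by
  set t := tau xa with ht
  have ht0 : 0 ≤ t := tau_nonneg xa
  have hl0 := lam_nonneg
  have hl1 := lam_le
  have hn : 0 < ‖xa‖ := norm_pos_iff.mpr h0
  have hlt : 0 ≤ lam * t := mul_nonneg hl0 ht0
  have hltt : lam * t ≤ t := by nlinarith
  have hpos : (0 : ℝ) < 16 * N := by linarith
  have hp4 : 1 / (16 * N) ≤ ‖xa‖ ^ 2 / 4 := by
    rw [div_le_div_iff₀ hpos (by norm_num)]
    rw [div_le_iff₀ (by linarith)] at hp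
    nlinarith
  -- the first tail
  have q1 : ‖xa‖ ^ 2 / 4 / (7 * (1 + t)) ≤ Q t := by
    rw [← exp_tau h0 h1]
    exact Q_ge ht0
  -- the second tail
  have e2 : Real.exp (-(lam * t) ^ 2 / 2) = (‖xa‖ ^ 2 / 4) ^ (lam ^ 2) := by
    rw [← exp_tau h0 h1, ← Real.exp_mul]
    congr 1
    ring
  have q2 : (16 * N) ^ (-(lam ^ 2)) / (7 * (1 + t)) ≤ Q (lam * t) := by
    refine le_trans ?_ (Q_ge hlt)
    rw [e2]
    apply div_le_div₀
    · positivity
    · rw [Real.rpow_neg hpos.le, ← Real.inv_rpow hpos.le]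
      apply Real.rpow_le_rpow (by positivity) _ (by positivity)
      rw [← one_div]
      exact hp4
    · positivity
    · linarith
  -- the logarithm
  have hlog : t ^ 2 ≤ 2 * Real.log (16 * N) := by
    rw [ht, tau_sq h0 h1]
    apply mul_le_mul_of_nonneg_left _ (by norm_num)
    apply Real.log_le_log (by positivity)
    rw [div_le_iff₀ (by positivity)]
    rw [div_le_iff₀ (by linarith)] at hp
    nlinarith
  have hsq : (1 + t) ^ 2 ≤ 2 + 4 * Real.log (16 * N) := by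
    nlinarith [sq_nonneg (1 - t)]
  have hlogpos : 0 < 2 + 4 * Real.log (16 * N) := lt_of_lt_of_le (by positivity) hsq
  have hA : 0 ≤ ‖xa‖ ^ 2 / 4 := by positivity
  have hB : 0 ≤ (16 * N) ^ (-(lam ^ 2)) := Real.rpow_nonneg hpos.le _
  have q3 : ‖xa‖ ^ 2 / 4 / (7 * (1 + t)) * ((16 * N) ^ (-(lam ^ 2)) / (7 * (1 + t)))
      ≤ Q t * Q (lam * t) :=
    mul_le_mul q1 q2 (by positivity) (Q_nonneg _)
  have q4 : ‖xa‖ ^ 2 / 4 * (16 * N) ^ (-(lam ^ 2)) / (49 * (2 + 4 * Real.log (16 * N)))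
      ≤ ‖xa‖ ^ 2 / 4 / (7 * (1 + t)) * ((16 * N) ^ (-(lam ^ 2)) / (7 * (1 + t))) := by
    rw [div_mul_div_comm]
    apply div_le_div_of_nonneg_left (by positivity) (by positivity)
    nlinarith
  have q5 : ‖xa‖ ^ 2 / 4 * (16 * N) ^ (-(lam ^ 2)) / (98 * (2 + 4 * Real.log (16 * N)))
      = ‖xa‖ ^ 2 / 4 * (16 * N) ^ (-(lam ^ 2)) / (49 * (2 + 4 * Real.log (16 * N))) / 2 := by
    field_simp
    ring
  rw [q5]
  linarith

/-- The final estimate. -/
theorem num_final (N : ℝ) (hN : 1 ≤ N) :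
    N ^ (-(3 - 2 * √2)) / (50000 * (1 + Real.log N))
      ≤ (16 * N) ^ (-(lam ^ 2)) / (98 * (2 + 4 * Real.log (16 * N))) / 16 := by
  have hN0 : 0 < N := by linarith
  have hlN : 0 ≤ Real.log N := Real.log_nonneg hN
  have hl1 := lam_le
  have hl0 := lam_nonneg
  have hl2 : lam ^ 2 ≤ 1 / 4 := by nlinarith
  have e1 : (16 * N) ^ (-(lam ^ 2)) = 16 ^ (-(lam ^ 2)) * N ^ (-(lam ^ 2)) :=
    Real.mul_rpow (by norm_num) hN0.le
  have e2 : (1 / 2 : ℝ) ≤ 16 ^ (-(lam ^ 2)) := by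
    have : (16 : ℝ) ^ (-(1 / 4) : ℝ) = 1 / 2 := by
      rw [show (16 : ℝ) = 2 ^ (4 : ℝ) by norm_num, ← Real.rpow_mul (by norm_num)]
      norm_num
    rw [← this]
    exact Real.rpow_le_rpow_of_exponent_le (by norm_num) (by linarith)
  have e3 : Real.log (16 * N) ≤ 2.78 + Real.log N := by
    rw [Real.log_mul (by norm_num) hN0.ne']
    have : Real.log 16 = 4 * Real.log 2 := by
      rw [show (16 : ℝ) = 2 ^ 4 by norm_num, Real.log_pow]; norm_num
    have h2 := Real.log_two_lt_d9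
    rw [this]
    linarith
  have e0 : 0 ≤ Real.log (16 * N) := Real.log_nonneg (by linarith)
  rw [← lam_sq, e1]
  set X := N ^ (-(lam ^ 2)) with hX
  have hX0 : 0 ≤ X := Real.rpow_nonneg hN0.le _
  have h3 : X / (50000 * (1 + Real.log N)) ≤ 1 / 2 * X / (98 * (2 + 4 * Real.log (16 * N))) / 16 := by
    rw [div_div, div_le_div_iff₀ (by positivity) (by positivity)]
    nlinarith [mul_nonneg hX0 hlN]
  refine h3.trans ?_
  apply div_le_div_of_nonneg_right _ (by norm_num)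
  apply div_le_div_of_nonneg_right _ (by positivity)
  exact mul_le_mul_of_nonneg_right e2 hX0

end Pool.Agent.MP_ec946a.RHR
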