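import Mathlib
import Pool.Agent.Lib.RHR.Exact
import Pool.Agent.Lib.RHR.Num

/-!
# Gaussian rounding of the basic relaxation of a 2-to-1 game with perfect completeness
-/

set_option autoImplicit false

namespace Pool.Agent.MP_ec946a.RHR

open MeasureTheory ProbabilityTheory Finset

variable {q n : ℕ} {G : Game q}

/-- The event which makes the rounding satisfy the edge `e` with the label `b` at `tgt e`. -/
def Fev (σ : G.SDPSolution n) (e : G.E) (b : Fin q) : Set (EuclideanSpace ℝ (Fin n)) :=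
  {g | Cand (σ.y (G.tgt e) b) g ∧ (∀ b', b' ≠ b → ¬ Cand (σ.y (G.tgt e) b') g) ∧
    (∃ a, G.proj e a = b ∧ Cand (σ.x (G.src e) a) g) ∧
    (∀ c, G.proj e c ≠ b → ¬ Cand (σ.x (G.src e) c) g)}

lemma measurableSet_Fev (σ : G.SDPSolution n) (e : G.E) (b : Fin q) :
    MeasurableSet (Fev σ e b) := by
  have h1 : Fev σ e b = {g | Cand (σ.y (G.tgt e) b) g} ∩
      ((⋂ b', {g | b' ≠ b → ¬ Cand (σ.y (G.tgt e) b') g}) ∩
      ((⋃ a, {g | G.proj e a = b ∧ Cand (σ.x (G.src e) a) g}) ∩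
      (⋂ c, {g | G.proj e c ≠ b → ¬ Cand (σ.x (G.src e) c) g}))) := by
    ext g
    simp [Fev]
  rw [h1]
  refine (measurableSet_cand _).inter (MeasurableSet.inter ?_ (MeasurableSet.inter ?_ ?_))
  · refine MeasurableSet.iInter fun b' => ?_
    by_cases h : b' = b
    · simp [h]
    · simp only [ne_eq, h, not_false_eq_true, true_imp_iff]
      exact (measurableSet_cand _).compl
  · refine MeasurableSet.iUnion fun a => ?_
    exact (MeasurableSet.const _).inter (measurableSet_cand _)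
  · refine MeasurableSet.iInter fun c => ?_
    by_cases h : G.proj e c = b
    · simp [h]
    · simp only [ne_eq, h, not_false_eq_true, true_imp_iff]
      exact (measurableSet_cand _).compl

lemma norm_x_le (σ : G.SDPSolution n) (u : G.U) (a : Fin q) : ‖σ.x u a‖ ≤ 1 := by
  have h := sum_norm_sq (fun b => σ.x u b) σ.x₀ (σ.sum_x _) σ.norm_x₀ (σ.orth_x _)
  have h2 : ‖σ.x u a‖ ^ 2 ≤ 1 := by
    rw [← h]
    exact single_le_sum (f := fun b => ‖σ.x u b‖ ^ 2) (fun _ _ => sq_nonneg _) (mem_univ a)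
  nlinarith [norm_nonneg (σ.x u a)]

lemma norm_y_le (σ : G.SDPSolution n) (v : G.V) (a : Fin q) : ‖σ.y v a‖ ≤ 1 := by
  have h := sum_norm_sq (fun b => σ.y v b) σ.x₀ (σ.sum_y _) σ.norm_x₀ (σ.orth_y _)
  have h2 : ‖σ.y v a‖ ^ 2 ≤ 1 := by
    rw [← h]
    exact single_le_sum (f := fun b => ‖σ.y v b‖ ^ 2) (fun _ _ => sq_nonneg _) (mem_univ a)
  nlinarith [norm_nonneg (σ.y v a)]

/-- The probability of the event for one edge and one label. -/
theorem prob_Fev (σ : G.SDPSolution n) (hσ : σ.obj = 1) (e : G.E) (b : Fin q) (N : ℝ)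
    (hN : 1 ≤ N) (hb : 1 / (2 * N) ≤ ‖σ.y (G.tgt e) b‖ ^ 2) :
    ‖σ.y (G.tgt e) b‖ ^ 2 / 8 * ((16 * N) ^ (-(lam ^ 2)) / (98 * (2 + 4 * Real.log (16 * N))))
      ≤ (stdGaussian (EuclideanSpace ℝ (Fin n))).real (Fev σ e b) := by
  classical
  have hy := exact σ hσ e
  set S : Finset (Fin q) := univ.filter (fun a => G.proj e a = b) with hS
  have hN0 : (0 : ℝ) < 1 / (2 * N) := by positivity
  have hyb : σ.y (G.tgt e) b = ∑ a ∈ S, σ.x (G.src e) a := hy b
  have hSne : S.Nonempty := by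
    rw [nonempty_iff_ne_empty]
    intro h
    rw [hyb, h, sum_empty, norm_zero, zero_pow two_ne_zero] at hb
    linarith
  obtain ⟨a, haS, hmax⟩ := S.exists_max_image (fun a => ‖σ.x (G.src e) a‖) hSne
  have hab : G.proj e a = b := (mem_filter.mp haS).2
  set xa := σ.x (G.src e) a with hxa
  set z := ∑ c ∈ S.erase a, σ.x (G.src e) c with hz
  have hyz : σ.y (G.tgt e) b = xa + z := by
    rw [hyb, hz, hxa, add_sum_erase S _ haS]
  have hcard : (S.erase a).card ≤ 1 := by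
    rw [card_erase_of_mem haS]
    have h2 := G.two_to_one e b
    have h3 : Nat.card {a // G.proj e a = b} = S.card := by
      rw [Nat.card_eq_fintype_card, Fintype.card_subtype]
    omega
  have hxz : inner ℝ xa z = 0 := by
    rw [hz, inner_sum]
    exact sum_eq_zero fun c hc => σ.orth_x _ _ _ (ne_of_mem_erase hc).symm
  have hza : ‖z‖ ≤ ‖xa‖ := by
    rcases (S.erase a).eq_empty_or_nonempty with h | h
    · rw [hz, h, sum_empty, norm_zero]; exact norm_nonneg _
    · obtain ⟨c, hc⟩ := card_eq_one.mp (le_antisymm hcard h.card_pos)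
      rw [hz, hc, sum_singleton]
      apply hmax
      have : c ∈ S.erase a := by rw [hc]; exact mem_singleton_self c
      exact mem_of_mem_erase this
  have hsq : ‖xa + z‖ ^ 2 = ‖xa‖ ^ 2 + ‖z‖ ^ 2 := by
    rw [norm_add_sq_real, hxz]; ring
  have hhalf : ‖σ.y (G.tgt e) b‖ ^ 2 ≤ 2 * ‖xa‖ ^ 2 := by
    rw [hyz, hsq]
    nlinarith [norm_nonneg z, norm_nonneg xa]
  have hxa0 : xa ≠ 0 := by
    intro h
    rw [h, norm_zero] at hhalf
    have : ‖σ.y (G.tgt e) b‖ ^ 2 ≤ 0 := by simpa using hhalf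
    linarith
  have hpa : 1 / (4 * N) ≤ ‖xa‖ ^ 2 := by
    have : 1 / (4 * N) = 1 / (2 * N) / 2 := by field_simp; norm_num
    rw [this]; linarith
  -- the other labels
  let w : {c // G.proj e c ≠ b} ⊕ {b' // b' ≠ b} → EuclideanSpace ℝ (Fin n) :=
    Sum.elim (fun c => σ.x (G.src e) c) (fun b' => σ.y (G.tgt e) b')
  have hw : ∀ j, inner ℝ xa (w j) = 0 := by
    rintro (⟨c, hc⟩ | ⟨b', hb'⟩)
    · refine σ.orth_x _ _ _ ?_
      rintro rfl
      exact hc hab
    · show inner ℝ (σ.x (G.src e) a) (σ.y (G.tgt e) b') = 0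
      rw [hy b']
      exact inner_x_fib σ e a b' (by rw [hab]; exact hb'.symm)
  have hwy : ∀ j, inner ℝ (σ.y (G.tgt e) b) (w j) = 0 := by
    rintro (⟨c, hc⟩ | ⟨b', hb'⟩)
    · show inner ℝ (σ.y (G.tgt e) b) (σ.x (G.src e) c) = 0
      rw [hy b, real_inner_comm]
      exact inner_x_fib σ e c b hc
    · exact σ.orth_y _ _ _ hb'.symm
  have hw' : ∀ j, inner ℝ z (w j) = 0 := by
    intro j
    have h := hwy j
    rw [hyz, inner_add_left, hw j, zero_add] at h
    exact h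
  have hw1 : ∀ j, ‖w j‖ ≤ 1 := by
    rintro (⟨c, hc⟩ | ⟨b', hb'⟩)
    · exact norm_x_le σ _ _
    · exact norm_y_le σ _ _
  have hs : ∑ j, ‖w j‖ ^ 2 ≤ 2 := by
    rw [Fintype.sum_sum_type]
    have s1 : ∑ c : {c // G.proj e c ≠ b}, ‖w (Sum.inl c)‖ ^ 2 ≤ 1 := by
      have h := sum_norm_sq (fun b => σ.x (G.src e) b) σ.x₀ (σ.sum_x _) σ.norm_x₀ (σ.orth_x _)
      rw [← h]
      calc ∑ c : {c // G.proj e c ≠ b}, ‖w (Sum.inl c)‖ ^ 2
          = ∑ c ∈ univ.filter (fun c => G.proj e c ≠ b), ‖σ.x (G.src e) c‖ ^ 2 :=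
            (Finset.sum_subtype (univ.filter fun c => G.proj e c ≠ b)
              (by intro c; simp) (fun c => ‖σ.x (G.src e) c‖ ^ 2)).symm
        _ ≤ _ := sum_le_univ_sum_of_nonneg fun _ => sq_nonneg _
    have s2 : ∑ c : {b' // b' ≠ b}, ‖w (Sum.inr c)‖ ^ 2 ≤ 1 := by
      have h := sum_norm_sq (fun b => σ.y (G.tgt e) b) σ.x₀ (σ.sum_y _) σ.norm_x₀ (σ.orth_y _)
      rw [← h]
      calc ∑ c : {b' // b' ≠ b}, ‖w (Sum.inr c)‖ ^ 2
          = ∑ c ∈ univ.filter (fun c => c ≠ b), ‖σ.y (G.tgt e) c‖ ^ 2 :=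
            (Finset.sum_subtype (univ.filter fun c => c ≠ b)
              (by intro c; simp) (fun c => ‖σ.y (G.tgt e) c‖ ^ 2)).symm
        _ ≤ _ := sum_le_univ_sum_of_nonneg fun _ => sq_nonneg _
    linarith
  have hyle := norm_y_le σ (G.tgt e) b
  rw [hyz] at hyle
  have hblock := block xa z w hxa0 hxz hza hyle hw hw' hw1 hs
  have hsub : {g | Cand xa g ∧ Cand (xa + z) g ∧ ∀ j, ¬ Cand (w j) g} ⊆ Fev σ e b := by
    rintro g ⟨h1, h2, h3⟩
    refine ⟨by rw [hyz]; exact h2, fun b' hb' => h3 (Sum.inr ⟨b', hb'⟩), ⟨a, hab, h1⟩,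
      fun c hc => h3 (Sum.inl ⟨c, hc⟩)⟩
  refine le_trans ?_ (hblock.trans (measureReal_mono hsub))
  refine le_trans ?_ (num xa hxa0 (norm_x_le σ _ _) N hN hpa)
  have hlog : 0 ≤ Real.log (16 * N) := Real.log_nonneg (by linarith)
  have hX : 0 ≤ (16 * N) ^ (-(lam ^ 2)) / (98 * (2 + 4 * Real.log (16 * N))) := by positivity
  rw [mul_div_assoc]
  apply mul_le_mul_of_nonneg_right _ hX
  linarith

/-- The expected number of satisfied edges is at most the value times the number of edges. -/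
theorem le_value (σ : G.SDPSolution n) :
    ∑ e, ∑ b, (stdGaussian (EuclideanSpace ℝ (Fin n))).real (Fev σ e b)
      ≤ G.value * Nat.card G.E := by
  classical
  set μ := stdGaussian (EuclideanSpace ℝ (Fin n)) with hμ
  have hE : (0 : ℝ) < (Nat.card G.E : ℝ) := by exact_mod_cast Nat.card_pos
  obtain ⟨e₀⟩ := G.neE
  have hq : Nonempty (Fin q) := by
    by_contra h
    rw [not_nonempty_iff] at h
    have h1 := σ.sum_x (G.src e₀)
    rw [univ_eq_empty, sum_empty] at h1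
    have h2 := σ.norm_x₀
    rw [← h1, norm_zero] at h2
    norm_num at h2
  obtain ⟨a₀⟩ := hq
  -- pointwise bound
  have hpt : ∀ g, ∑ e, ∑ b, (Fev σ e b).indicator (fun _ => (1 : ℝ)) g
      ≤ G.value * Nat.card G.E := by
    intro g
    let LU : G.U → Fin q := fun u => if h : ∃ a, Cand (σ.x u a) g then h.choose else a₀
    let LV : G.V → Fin q := fun v => if h : ∃ a, Cand (σ.y v a) g then h.choose else a₀
    have hLU : ∀ u, (∃ a, Cand (σ.x u a) g) → Cand (σ.x u (LU u)) g := by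
      intro u h
      simp only [LU, dif_pos h]
      exact h.choose_spec
    have hLV : ∀ v, (∃ a, Cand (σ.y v a) g) → Cand (σ.y v (LV v)) g := by
      intro v h
      simp only [LV, dif_pos h]
      exact h.choose_spec
    have hsat : ∀ e b, g ∈ Fev σ e b → e ∈ G.satisfied LU LV := by
      rintro e b ⟨h1, h2, ⟨a, h3, h4⟩, h5⟩
      have k1 := hLU (G.src e) ⟨a, h4⟩
      have k2 := hLV (G.tgt e) ⟨b, h1⟩
      have k3 : G.proj e (LU (G.src e)) = b := by
        by_contra h; exact h5 _ h k1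
      have k4 : LV (G.tgt e) = b := by
        by_contra h; exact h2 _ h k2
      show G.proj e (LU (G.src e)) = LV (G.tgt e)
      rw [k3, k4]
    have h6 : ∀ e, ∑ b, (Fev σ e b).indicator (fun _ => (1 : ℝ)) g
        ≤ if e ∈ G.satisfied LU LV then 1 else 0 := by
      intro e
      by_cases h : ∃ b, g ∈ Fev σ e b
      · obtain ⟨b, hb⟩ := h
        rw [if_pos (hsat e b hb), sum_eq_single_of_mem b (mem_univ b)]
        · exact Set.indicator_le_self' (fun _ _ => zero_le_one) g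
        · intro b' _ hb'
          apply Set.indicator_of_notMem
          rintro ⟨h1, -⟩
          exact hb.2.1 b' hb' h1
      · push Not at h
        rw [sum_eq_zero fun b _ => Set.indicator_of_notMem (h b) _]
        split_ifs <;> norm_num
    refine (sum_le_sum fun e _ => h6 e).trans ?_
    have h7 : ∑ e, (if e ∈ G.satisfied LU LV then (1 : ℝ) else 0)
        = Nat.card (G.satisfied LU LV) := by
      rw [sum_boole, Nat.card_eq_fintype_card, Fintype.card_subtype]
    rw [h7]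
    have h8 : (Nat.card (G.satisfied LU LV) : ℝ) / (Nat.card G.E : ℝ) ≤ G.value := by
      have : BddAbove (Set.range fun L : (G.U → Fin q) × (G.V → Fin q) =>
          (Nat.card (G.satisfied L.1 L.2) : ℝ) / (Nat.card G.E : ℝ)) :=
        (Set.finite_range _).bddAbove
      exact le_ciSup this (LU, LV)
    rwa [div_le_iff₀ hE] at h8
  have hint : ∀ e b, Integrable ((Fev σ e b).indicator (fun _ => (1 : ℝ))) μ := fun e b =>
    (integrable_const 1).indicator (measurableSet_Fev σ e b)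
  have h9 : ∑ e, ∑ b, μ.real (Fev σ e b)
      = ∫ g, ∑ e, ∑ b, (Fev σ e b).indicator (fun _ => (1 : ℝ)) g ∂μ := by
    rw [integral_finsetSum _ fun e _ => integrable_finsetSum _ fun b _ => hint e b]
    refine sum_congr rfl fun e _ => ?_
    rw [integral_finsetSum _ fun b _ => hint e b]
    refine sum_congr rfl fun b _ => ?_
    exact (integral_indicator_one (measurableSet_Fev σ e b)).symm
  rw [h9]
  have h10 : ∫ g, ∑ e, ∑ b, (Fev σ e b).indicator (fun _ => (1 : ℝ)) g ∂μ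
      ≤ ∫ _g, G.value * Nat.card G.E ∂μ :=
    integral_mono (integrable_finsetSum _ fun e _ => integrable_finsetSum _ fun b _ => hint e b)
      (integrable_const _) hpt
  simpa using h10

/-- **Rounding.** Every 2-to-1 game whose basic semidefinite relaxation has value one has value
at least `q^(-(3 - 2√2))`, up to a logarithm. -/
theorem value_ge (σ : G.SDPSolution n) (hσ : σ.obj = 1) :
    (q : ℝ) ^ (-(3 - 2 * √2)) / (50000 * (1 + Real.log q)) ≤ G.value := by
  classical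
  have hE : (0 : ℝ) < (Nat.card G.E : ℝ) := by exact_mod_cast Nat.card_pos
  obtain ⟨e₀⟩ := G.neE
  have hq : 1 ≤ q := by
    by_contra h
    have hq0 : q = 0 := by omega
    subst hq0
    have h1 := σ.sum_x (G.src e₀)
    rw [univ_eq_empty, sum_empty] at h1
    have h2 := σ.norm_x₀
    rw [← h1, norm_zero] at h2
    norm_num at h2
  have hN : (1 : ℝ) ≤ (q : ℝ) := by exact_mod_cast hq
  set c : ℝ := (16 * (q : ℝ)) ^ (-(lam ^ 2)) / (98 * (2 + 4 * Real.log (16 * (q : ℝ)))) with hc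
  have hc0 : 0 ≤ c := by
    have hlog : 0 ≤ Real.log (16 * (q : ℝ)) := Real.log_nonneg (by linarith)
    have : 0 ≤ (16 * (q : ℝ)) ^ (-(lam ^ 2)) := Real.rpow_nonneg (by linarith) _
    positivity
  have hedge : ∀ e, c / 16
      ≤ ∑ b, (stdGaussian (EuclideanSpace ℝ (Fin n))).real (Fev σ e b) := by
    intro e
    set T : Finset (Fin q) := univ.filter fun b => 1 / (2 * (q : ℝ)) ≤ ‖σ.y (G.tgt e) b‖ ^ 2
      with hT
    have h1 : ∑ b ∈ T, ‖σ.y (G.tgt e) b‖ ^ 2 / 8 * c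
        ≤ ∑ b, (stdGaussian (EuclideanSpace ℝ (Fin n))).real (Fev σ e b) := by
      refine (sum_le_sum fun b hb => prob_Fev σ hσ e b q hN (mem_filter.mp hb).2).trans ?_
      exact sum_le_univ_sum_of_nonneg fun b => measureReal_nonneg
    refine le_trans ?_ h1
    have h2 := sum_norm_sq (fun b => σ.y (G.tgt e) b) σ.x₀ (σ.sum_y _) σ.norm_x₀ (σ.orth_y _)
    have h3 : ∑ b ∈ univ.filter (fun b => ¬ 1 / (2 * (q : ℝ)) ≤ ‖σ.y (G.tgt e) b‖ ^ 2),
        ‖σ.y (G.tgt e) b‖ ^ 2 ≤ 1 / 2 := by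
      calc ∑ b ∈ univ.filter (fun b => ¬ 1 / (2 * (q : ℝ)) ≤ ‖σ.y (G.tgt e) b‖ ^ 2),
          ‖σ.y (G.tgt e) b‖ ^ 2
          ≤ ∑ _b ∈ univ.filter (fun b => ¬ 1 / (2 * (q : ℝ)) ≤ ‖σ.y (G.tgt e) b‖ ^ 2),
            1 / (2 * (q : ℝ)) :=
            sum_le_sum fun b hb => (not_le.mp (mem_filter.mp hb).2).le
        _ ≤ ∑ _b : Fin q, 1 / (2 * (q : ℝ)) :=
            sum_le_univ_sum_of_nonneg fun _ => by positivity
        _ = 1 / 2 := by
            rw [sum_const, card_univ, Fintype.card_fin, nsmul_eq_mul]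
            field_simp
    have h4 := sum_filter_add_sum_filter_not univ
      (fun b => 1 / (2 * (q : ℝ)) ≤ ‖σ.y (G.tgt e) b‖ ^ 2) (fun b => ‖σ.y (G.tgt e) b‖ ^ 2)
    rw [h2] at h4
    have h5 : 1 / 2 ≤ ∑ b ∈ T, ‖σ.y (G.tgt e) b‖ ^ 2 := by
      rw [hT]; linarith
    have h6 : ∑ b ∈ T, ‖σ.y (G.tgt e) b‖ ^ 2 / 8 * c
        = (∑ b ∈ T, ‖σ.y (G.tgt e) b‖ ^ 2) / 8 * c := by
      rw [sum_div, sum_mul]
    rw [h6]
    nlinarith
  have h1 : c / 16 * Nat.card G.E ≤ G.value * Nat.card G.E := by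
    refine le_trans ?_ (le_value σ)
    have h2 : ∑ _e : G.E, c / 16 = c / 16 * Nat.card G.E := by
      rw [sum_const, card_univ, nsmul_eq_mul, Nat.card_eq_fintype_card, mul_comm]
    rw [← h2]
    exact sum_le_sum fun e _ => hedge e
  have h2 : c / 16 ≤ G.value := le_of_mul_le_mul_right h1 hE
  exact (num_final q hN).trans h2

end Pool.Agent.MP_ec946a.RHR
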